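import Mathlib

set_option autoImplicit false

namespace Pool.Agent.Results.MP_22eee4_an.RealChiDisproof

open Finset

/-- The chi inequality for a real sequence `a 1, a 2, ...` (the value `a 0` is ignored). -/
def ChiInequality (a : ℕ → ℝ) : Prop :=
  ∀ i j : ℕ, 1 ≤ i → 1 ≤ j → ((j : ℝ) + 1) * i ≤ ((j : ℝ) + 1) * a j + a i

/-- The greedy integer sequence of Levine and O'Sullivan: `chi 1 = 1` and, for `i > 1`,
`chi i` is the maximum of `(j + 1) * (i - chi j)` over `1 ≤ j ≤ i - 1`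
(here `i = n + 2` and `j = t + 1` with `t : Fin (n + 1)`); `chi 0 = 0` is a dummy value. -/
def chi : ℕ → ℤ
  | 0 => 0
  | 1 => 1
  | (n + 2) =>
      (univ : Finset (Fin (n + 1))).sup' ⟨0, mem_univ 0⟩
        (fun t => (((t : ℕ) : ℤ) + 1 + 1) * (((n : ℤ) + 2) - chi ((t : ℕ) + 1)))

theorem chi_ge (i j : ℕ) (hj : 1 ≤ j) (hij : j < i) :
    ((j : ℤ) + 1) * ((i : ℤ) - chi j) ≤ chi i := by
  obtain ⟨n, rfl⟩ : ∃ n, i = n + 2 := ⟨i - 2, by omega⟩
  obtain ⟨t, rfl⟩ : ∃ t, j = t + 1 := ⟨j - 1, by omega⟩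
  have ht : t < n + 1 := by omega
  have := Finset.le_sup' (s := (univ : Finset (Fin (n + 1))))
    (fun t => (((t : ℕ) : ℤ) + 1 + 1) * (((n : ℤ) + 2) - chi ((t : ℕ) + 1)))
    (mem_univ (⟨t, ht⟩ : Fin (n + 1)))
  rw [chi]
  push_cast
  simpa using this

theorem chi_eq (i : ℕ) (hi : 2 ≤ i) :
    ∃ j, 1 ≤ j ∧ j < i ∧ chi i = ((j : ℤ) + 1) * ((i : ℤ) - chi j) := by
  obtain ⟨n, rfl⟩ : ∃ n, i = n + 2 := ⟨i - 2, by omega⟩
  obtain ⟨t, -, ht⟩ := Finset.exists_mem_eq_sup' (s := (univ : Finset (Fin (n + 1))))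
    ⟨0, mem_univ 0⟩
    (fun t => (((t : ℕ) : ℤ) + 1 + 1) * (((n : ℤ) + 2) - chi ((t : ℕ) + 1)))
  refine ⟨(t : ℕ) + 1, by omega, by omega, ?_⟩
  rw [chi, ht]
  push_cast
  ring

theorem chi_one : chi 1 = 1 := by rw [chi]

/-- `chi i` is the greatest element of `{(j + 1) * (i - chi j) | 1 ≤ j ≤ i - 1}` (sanity check). -/
theorem chi_isGreatest (i : ℕ) (hi : 2 ≤ i) :
    IsGreatest {x : ℤ | ∃ j : ℕ, 1 ≤ j ∧ j ≤ i - 1 ∧ x = ((j : ℤ) + 1) * ((i : ℤ) - chi j)}
      (chi i) := by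
  constructor
  · obtain ⟨j, h1, h2, h3⟩ := chi_eq i hi
    exact ⟨j, h1, by omega, h3⟩
  · rintro x ⟨j, h1, h2, rfl⟩
    exact chi_ge i j h1 (by omega)

/-- Linear lower bound for `chi`. -/
theorem chi_ge_self (i : ℕ) : (i : ℤ) ≤ chi i := by
  induction i using Nat.strong_induction_on with
  | _ i ih =>
    rcases Nat.lt_or_ge i 2 with h | h
    · interval_cases i
      · simp [chi]
      · simp [chi_one]
    · have := chi_ge i 1 le_rfl (by omega)
      rw [chi_one] at this
      push_cast at this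
      omega

/-- Quadratic upper bound for `chi`. -/
theorem chi_upper (i : ℕ) (hi : 1 ≤ i) : 4 * chi i ≤ ((i : ℤ) + 1) ^ 2 := by
  rcases Nat.lt_or_ge i 2 with h | h
  · obtain rfl : i = 1 := by omega
    rw [chi_one]; norm_num
  · obtain ⟨j, hj1, hj2, hj3⟩ := chi_eq i h
    have := chi_ge_self j
    rw [hj3]
    have h1 : ((j : ℤ) + 1) * ((i : ℤ) - chi j) ≤ ((j : ℤ) + 1) * ((i : ℤ) - j) := by
      apply mul_le_mul_of_nonneg_left _ (by positivity)
      omega
    nlinarith [sq_nonneg ((i : ℤ) - 2 * j - 1)]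

theorem chi_two : chi 2 = 2 := by
  obtain ⟨j, h1, h2, h3⟩ := chi_eq 2 le_rfl
  obtain rfl : j = 1 := by omega
  rw [h3, chi_one]; norm_num

theorem chi_three : chi 3 = 4 := by
  have := chi_ge 3 1 le_rfl (by norm_num)
  obtain ⟨j, h1, h2, h3⟩ := chi_eq 3 (by norm_num)
  obtain rfl | rfl : j = 1 ∨ j = 2 := by omega
  · rw [h3, chi_one]; norm_num
  · rw [chi_one] at this
    rw [h3, chi_two] at this
    norm_num at this

theorem chi_four : chi 4 = 6 := by
  obtain ⟨j, h1, h2, h3⟩ := chi_eq 4 (by norm_num)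
  have h4 := chi_ge 4 1 le_rfl (by norm_num)
  obtain rfl | rfl | rfl : j = 1 ∨ j = 2 ∨ j = 3 := by omega
  · rw [h3, chi_one]; norm_num
  · rw [h3, chi_two]; norm_num
  · rw [h3, chi_three, chi_one] at h4
    norm_num at h4

theorem chi_five : chi 5 = 9 := by
  obtain ⟨j, h1, h2, h3⟩ := chi_eq 5 (by norm_num)
  have h4 := chi_ge 5 2 (by norm_num) (by norm_num)
  rw [chi_two] at h4
  obtain rfl | rfl | rfl | rfl : j = 1 ∨ j = 2 ∨ j = 3 ∨ j = 4 := by omega
  · rw [h3, chi_one] at h4; norm_num at h4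
  · rw [h3, chi_two]; norm_num
  · rw [h3, chi_three] at h4
    norm_num at h4
  · rw [h3, chi_four] at h4
    norm_num at h4

/-- `chi` is strictly increasing. -/
theorem chi_strictMono : StrictMono chi := by
  apply strictMono_nat_of_lt_succ
  intro n
  rcases Nat.lt_or_ge n 2 with h | h
  · interval_cases n
    · rw [chi_one, chi]; norm_num
    · rw [chi_one, chi_two]; norm_num
  · obtain ⟨j, h1, h2, h3⟩ := chi_eq n h
    have h4 := chi_ge (n + 1) j h1 (by omega)
    push_cast at h4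
    have : (0 : ℤ) < (j : ℤ) + 1 := by positivity
    nlinarith

theorem chi_lower (k : ℕ) (hk : 9 ≤ k) :
    3 / 4 * (k : ℝ) * (Real.sqrt k - 1) ≤ (chi k : ℝ) := by
  set m := Nat.sqrt k with hm
  have h1 : m * m ≤ k := Nat.sqrt_le k
  have h2 : k < (m + 1) * (m + 1) := Nat.lt_succ_sqrt k
  have hm10 : 3 ≤ m := by
    by_contra h
    push Not at h
    have : m + 1 ≤ 3 := by omega
    have : (m + 1) * (m + 1) ≤ 3 * 3 := Nat.mul_le_mul this this
    omega
  have hlt : m - 1 < k := by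
    have : m ≤ m * m := Nat.le_mul_self m
    omega
  have h3 := chi_ge k (m - 1) (by omega) hlt
  have h4 := chi_upper (m - 1) (by omega)
  have hc : (((m - 1 : ℕ) : ℤ) + 1) = (m : ℤ) := by
    have : 1 ≤ m := by omega
    push_cast [Nat.cast_sub this]
    ring
  rw [hc] at h3 h4
  have h3' : (m : ℝ) * ((k : ℝ) - (chi (m - 1) : ℝ)) ≤ (chi k : ℝ) := by exact_mod_cast h3
  have h4' : 4 * (chi (m - 1) : ℝ) ≤ (m : ℝ) ^ 2 := by exact_mod_cast h4
  have h1' : (m : ℝ) * m ≤ k := by exact_mod_cast h1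
  have h2' : (k : ℝ) < ((m : ℝ) + 1) * (m + 1) := by exact_mod_cast h2
  have hs : Real.sqrt k < (m : ℝ) + 1 := by
    rw [Real.sqrt_lt' (by positivity)]
    nlinarith
  have hm0 : (0 : ℝ) ≤ m := by positivity
  have h5 : (m : ℝ) * (3 / 4 * (k : ℝ)) ≤ (m : ℝ) * ((k : ℝ) - (chi (m - 1) : ℝ)) := by
    apply mul_le_mul_of_nonneg_left _ hm0
    nlinarith
  have h6 : (Real.sqrt k - 1) * (3 / 4 * (k : ℝ)) ≤ (m : ℝ) * (3 / 4 * (k : ℝ)) := by
    apply mul_le_mul_of_nonneg_right _ (by positivity)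
    linarith
  linarith

theorem chi_lower' (k : ℕ) (hk : 9 ≤ k) :
    1 / 2 * (k : ℝ) ^ (3 / 2 : ℝ) ≤ (chi k : ℝ) := by
  have h := chi_lower k hk
  have hk' : (9 : ℝ) ≤ k := by exact_mod_cast hk
  have h3 : 3 ≤ Real.sqrt k := by
    apply Real.le_sqrt_of_sq_le
    linarith
  have hk0 : (0 : ℝ) ≤ k := by positivity
  have e : (k : ℝ) ^ (3 / 2 : ℝ) = k * Real.sqrt k := by
    rw [show (3 / 2 : ℝ) = 1 + 1 / 2 by norm_num, Real.rpow_add (by linarith), Real.rpow_one,
      ← Real.sqrt_eq_rpow]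
  rw [e]
  nlinarith

theorem chi_pos (k : ℕ) (hk : 1 ≤ k) : (0 : ℝ) < (chi k : ℝ) := by
  have := chi_ge_self k
  have : (0 : ℤ) < chi k := by omega
  exact_mod_cast this

/-- The reciprocal sum of `chi` converges. -/
theorem chi_summable : Summable (fun k : ℕ => 1 / (chi k : ℝ)) := by
  rw [← summable_nat_add_iff 9]
  have h := (Real.summable_nat_rpow_inv (p := 3 / 2)).2 (by norm_num)
  have h' := ((summable_nat_add_iff 9).2 h).mul_left 2
  refine Summable.of_nonneg_of_le (fun k => ?_) (fun k => ?_) h'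
  · have := chi_pos (k + 9) (by omega)
    positivity
  · have h1 := chi_lower' (k + 9) (by omega)
    have h2 : (0 : ℝ) < ((k + 9 : ℕ) : ℝ) ^ (3 / 2 : ℝ) := by positivity
    calc 1 / (chi (k + 9) : ℝ) ≤ 1 / (1 / 2 * ((k + 9 : ℕ) : ℝ) ^ (3 / 2 : ℝ)) :=
          one_div_le_one_div_of_le (by positivity) h1
      _ = 2 * (((k + 9 : ℕ) : ℝ) ^ (3 / 2 : ℝ))⁻¹ := by
          field_simp

/-- The modified sequence `(x, 4 - 2x, 6 - 2x, 8 - 2x, chi 5, chi 6, ...)`. -/
noncomputable def modSeq (x : ℝ) (k : ℕ) : ℝ :=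
  if k = 0 then 0 else if k = 1 then x else if k ≤ 4 then 2 * (k : ℝ) - 2 * x else (chi k : ℝ)

theorem modSeq_one (x : ℝ) : modSeq x 1 = x := by simp [modSeq]

theorem modSeq_two (x : ℝ) : modSeq x 2 = 4 - 2 * x := by norm_num [modSeq]

theorem modSeq_three (x : ℝ) : modSeq x 3 = 6 - 2 * x := by norm_num [modSeq]

theorem modSeq_four (x : ℝ) : modSeq x 4 = 8 - 2 * x := by norm_num [modSeq]

theorem modSeq_large (x : ℝ) (k : ℕ) (hk : 5 ≤ k) : modSeq x k = (chi k : ℝ) := by
  unfold modSeq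
  rw [if_neg (by omega), if_neg (by omega), if_neg (by omega)]

theorem modSeq_chi (x : ℝ) (h1 : 2 / 3 ≤ x) (h2 : x < 1) : ChiInequality (modSeq x) := by
  intro i j hi hj
  -- large terms
  have hlin : ∀ k : ℕ, 5 ≤ k → 3 * ((k : ℝ) - 2) ≤ (chi k : ℝ) := by
    intro k hk
    have := chi_ge k 2 (by norm_num) (by omega)
    rw [chi_two] at this
    have h : ((2 : ℕ) : ℤ) + 1 = 3 := by norm_num
    rw [h] at this
    exact_mod_cast this
  -- all terms with index at least two dominate their index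
  have hge : ∀ k : ℕ, 2 ≤ k → (k : ℝ) ≤ modSeq x k := by
    intro k hk
    rcases Nat.lt_or_ge k 5 with h | h
    · interval_cases k
      · rw [modSeq_two]; push_cast; linarith
      · rw [modSeq_three]; push_cast; linarith
      · rw [modSeq_four]; push_cast; linarith
    · rw [modSeq_large x k h]
      exact_mod_cast chi_ge_self k
  have hpos : ∀ k : ℕ, 1 ≤ k → 0 ≤ modSeq x k := by
    intro k hk
    rcases Nat.lt_or_ge k 2 with h | h
    · obtain rfl : k = 1 := by omega
      rw [modSeq_one]; linarith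
    · exact le_trans (by positivity) (hge k h)
  rcases Nat.lt_or_ge j i with hji | hji
  · -- j < i
    rcases Nat.lt_or_ge i 5 with h5 | h5
    · interval_cases i
      · omega
      · obtain rfl : j = 1 := by omega
        rw [modSeq_one, modSeq_two]; push_cast; linarith
      · obtain rfl | rfl : j = 1 ∨ j = 2 := by omega
        · rw [modSeq_one, modSeq_three]; push_cast; linarith
        · rw [modSeq_two, modSeq_three]; push_cast; linarith
      · obtain rfl | rfl | rfl : j = 1 ∨ j = 2 ∨ j = 3 := by omega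
        · rw [modSeq_one, modSeq_four]; push_cast; linarith
        · rw [modSeq_two, modSeq_four]; push_cast; linarith
        · rw [modSeq_three, modSeq_four]; push_cast; linarith
    · rw [modSeq_large x i h5]
      have h6 := hlin i h5
      have h5' : (5 : ℝ) ≤ i := by exact_mod_cast h5
      have hmain : ((j : ℝ) + 1) * ((i : ℝ) - chi j) ≤ chi i := by
        exact_mod_cast chi_ge i j hj hji
      rcases Nat.lt_or_ge j 5 with hj5 | hj5
      · interval_cases j
        · rw [modSeq_one]; push_cast; linarith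
        · rw [modSeq_two]; rw [chi_two] at hmain; push_cast at hmain ⊢; linarith
        · rw [modSeq_three]; rw [chi_three] at hmain; push_cast at hmain ⊢; linarith
        · rw [modSeq_four]; rw [chi_four] at hmain; push_cast at hmain ⊢; linarith
      · rw [modSeq_large x j hj5]
        linarith
  · -- i ≤ j
    rcases Nat.lt_or_ge j 2 with hj2 | hj2
    · obtain rfl : j = 1 := by omega
      obtain rfl : i = 1 := by omega
      rw [modSeq_one]; push_cast; linarith
    · have h7 := hge j hj2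
      have h8 := hpos i hi
      have h9 : (i : ℝ) ≤ j := by exact_mod_cast hji
      have h10 : ((j : ℝ) + 1) * i ≤ ((j : ℝ) + 1) * modSeq x j :=
        mul_le_mul_of_nonneg_left (h9.trans h7) (by positivity)
      linarith

theorem modSeq_strictMono (x : ℝ) (h1 : 2 / 3 ≤ x) (h2 : x < 1) : StrictMono (modSeq x) := by
  apply strictMono_nat_of_lt_succ
  intro n
  rcases Nat.lt_or_ge n 5 with h | h
  · interval_cases n
    · rw [modSeq_one]; simp [modSeq]; linarith
    · rw [modSeq_one, modSeq_two]; linarith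
    · rw [modSeq_two, modSeq_three]; linarith
    · rw [modSeq_three, modSeq_four]; linarith
    · rw [modSeq_four, modSeq_large x 5 le_rfl, chi_five]; push_cast; linarith
  · rw [modSeq_large x n h, modSeq_large x (n + 1) (by omega)]
    exact_mod_cast chi_strictMono (Nat.lt_succ_self n)

/-- The gain in the first four terms. -/
theorem head_gain (x : ℝ) (h1 : 2 / 3 ≤ x) (h2 : x < 1) :
    1 + 1 / 2 + 1 / 4 + 1 / 6 < 1 / x + 1 / (4 - 2 * x) + 1 / (6 - 2 * x) + 1 / (8 - 2 * x) := by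
  have e1 : 1 / x - 1 = (1 - x) / x := by field_simp
  have e2 : 1 / (4 - 2 * x) - 1 / 2 = -(1 - x) / (4 - 2 * x) := by
    have : (4 - 2 * x) ≠ 0 := by linarith
    field_simp; ring
  have e3 : 1 / (6 - 2 * x) - 1 / 4 = -(1 - x) / (2 * (6 - 2 * x)) := by
    have : (6 - 2 * x) ≠ 0 := by linarith
    field_simp; ring
  have e4 : 1 / (8 - 2 * x) - 1 / 6 = -(1 - x) / (3 * (8 - 2 * x)) := by
    have : (8 - 2 * x) ≠ 0 := by linarith
    field_simp; ring
  have b1 : (1 - x) ≤ (1 - x) / x := by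
    rw [le_div_iff₀ (by linarith)]
    nlinarith
  have b2 : (1 - x) / (4 - 2 * x) ≤ (1 - x) / 2 :=
    div_le_div_of_nonneg_left (by linarith) (by norm_num) (by linarith)
  have b3 : (1 - x) / (2 * (6 - 2 * x)) ≤ (1 - x) / 8 :=
    div_le_div_of_nonneg_left (by linarith) (by norm_num) (by linarith)
  have b4 : (1 - x) / (3 * (8 - 2 * x)) ≤ (1 - x) / 18 :=
    div_le_div_of_nonneg_left (by linarith) (by norm_num) (by linarith)
  rw [neg_div] at e2 e3 e4
  linarith

/-- **Disproof of Q1.** For every real `x` with `2/3 ≤ x < 1` there is a strictly increasing real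
sequence with first term `x`, agreeing with `chi` from the fifth term on, that satisfies the chi
inequality and whose reciprocal sum is strictly larger than the (finite) reciprocal sum of the
greedy integer sequence `chi`. -/
theorem result (x : ℝ) (h1 : 2 / 3 ≤ x) (h2 : x < 1) :
    ∃ a : ℕ → ℝ, a 1 = x ∧ StrictMono a ∧ (∀ k, 5 ≤ k → a k = chi k) ∧ ChiInequality a ∧
      ∑' k : ℕ, ENNReal.ofReal (1 / (chi (k + 1) : ℝ)) <
        ∑' k : ℕ, ENNReal.ofReal (1 / a (k + 1)) := by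
  refine ⟨modSeq x, modSeq_one x, modSeq_strictMono x h1 h2, modSeq_large x,
    modSeq_chi x h1 h2, ?_⟩
  have hs1 : Summable (fun k : ℕ => 1 / (chi (k + 1) : ℝ)) :=
    (summable_nat_add_iff 1).2 chi_summable
  have hs5 : Summable (fun k : ℕ => 1 / (chi (k + 1 + 4) : ℝ)) := by
    have := (summable_nat_add_iff 5).2 chi_summable
    simpa [add_assoc] using this
  have hs2 : Summable (fun k : ℕ => 1 / modSeq x (k + 1)) := by
    rw [← summable_nat_add_iff 4]
    refine hs5.congr (fun k => ?_)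
    rw [modSeq_large x (k + 4 + 1) (by omega)]
  have hn1 : ∀ k : ℕ, 0 ≤ 1 / (chi (k + 1) : ℝ) := fun k => by
    have := chi_pos (k + 1) (by omega)
    positivity
  have hn2 : ∀ k : ℕ, 0 ≤ 1 / modSeq x (k + 1) := fun k => by
    have : modSeq x 0 < modSeq x (k + 1) := modSeq_strictMono x h1 h2 (by omega)
    have h0 : modSeq x 0 = 0 := by simp [modSeq]
    rw [h0] at this
    positivity
  rw [← ENNReal.ofReal_tsum_of_nonneg hn1 hs1, ← ENNReal.ofReal_tsum_of_nonneg hn2 hs2]
  have e1 : ∑' k : ℕ, 1 / (chi (k + 1) : ℝ)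
      = (1 + 1 / 2 + 1 / 4 + 1 / 6) + ∑' k : ℕ, 1 / (chi (k + 4 + 1) : ℝ) := by
    rw [← hs1.sum_add_tsum_nat_add 4]
    congr 1
    simp only [Finset.sum_range_succ, Finset.sum_range_zero]
    norm_num [chi_one, chi_two, chi_three, chi_four]
  have e2 : ∑' k : ℕ, 1 / modSeq x (k + 1)
      = (1 / x + 1 / (4 - 2 * x) + 1 / (6 - 2 * x) + 1 / (8 - 2 * x))
        + ∑' k : ℕ, 1 / (chi (k + 4 + 1) : ℝ) := by
    rw [← hs2.sum_add_tsum_nat_add 4]
    refine congrArg₂ (· + ·) ?_ ?_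
    · simp only [Finset.sum_range_succ, Finset.sum_range_zero, zero_add]
      rw [modSeq_one, modSeq_two, modSeq_three, modSeq_four]
    · apply tsum_congr
      intro k
      rw [modSeq_large x (k + 4 + 1) (by omega)]
  have hg := head_gain x h1 h2
  have hlt : ∑' k : ℕ, 1 / (chi (k + 1) : ℝ) < ∑' k : ℕ, 1 / modSeq x (k + 1) := by
    rw [e1, e2]; linarith
  have hnn : 0 ≤ ∑' k : ℕ, 1 / (chi (k + 1) : ℝ) := tsum_nonneg hn1
  exact (ENNReal.ofReal_lt_ofReal_iff (lt_of_le_of_lt hnn hlt)).2 hlt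

end Pool.Agent.Results.MP_22eee4_an.RealChiDisproof
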